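import Mathlib

set_option autoImplicit false

/-! Project GJ: an inequality of Loomis-Whitney type for a ternary linear congruence. -/

namespace Pool.Agent.Y445.GJ

open Finset

theorem val_inj {q : ℕ} [NeZero q] (x y : ZMod q) (h : (q : ℤ) ∣ (x.val : ℤ) - y.val) : x = y := by
  have h1 : ((y.val : ℤ) : ZMod q) = ((x.val : ℤ) : ZMod q) :=
    (ZMod.intCast_eq_intCast_iff_dvd_sub _ _ _).2 h
  simpa using h1.symm

/-- cancellation of a coefficient -/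
theorem canc {c : ℤ} (hc : c ≠ 0) {q : ℕ} {K : ℕ} (hK : K = q * c.natAbs) {t : ℤ}
    (h : (K : ℤ) ∣ c * t) : (q : ℤ) ∣ t := by
  have h1 : (q : ℤ) * c ∣ (K : ℤ) := by
    rw [hK]
    push_cast
    exact mul_dvd_mul_left _ ((dvd_abs _ _).2 dvd_rfl)
  have h2 : (q : ℤ) * c ∣ t * c := by
    rw [mul_comm t c]
    exact h1.trans h
  exact (mul_dvd_mul_iff_right hc).1 h2

/-- the number of solutions of two congruences with coprime moduli -/
theorem cnt {c1 c2 c3 : ℤ} {k q : ℕ} [NeZero q] (hq : q = k * c2.natAbs * c3.natAbs)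
    (h12 : IsCoprime c1 c2)
    (h13 : IsCoprime c1 c3) (h23 : IsCoprime c2 c3) (u v : ℤ)
    (E : Finset (ZMod q))
    (hE : ∀ x ∈ E, c3 ∣ c1 * (x.val : ℤ) - u ∧ c2 ∣ c1 * (x.val : ℤ) - v) : E.card ≤ k := by
  set m : ℕ := c2.natAbs * c3.natAbs with hm
  have hkm : q = m * k := by rw [hq, hm]; ring
  have h1 := Finset.card_le_card_of_injOn (s := E) (t := range k) (fun x => x.val / m) (by
    intro x _
    have h2 : x.val < m * k := lt_of_lt_of_eq (ZMod.val_lt x) hkm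
    exact Finset.mem_coe.2 (mem_range.2 (Nat.div_lt_of_lt_mul h2))) (by
    intro x hx y hy hxy
    have hx' := hE x (Finset.mem_coe.1 hx)
    have hy' := hE y (Finset.mem_coe.1 hy)
    have h3 : c3 ∣ (x.val : ℤ) - y.val := by
      apply h13.symm.dvd_of_dvd_mul_left
      have := dvd_sub hx'.1 hy'.1
      have e : c1 * ((x.val : ℤ) - y.val) = c1 * (x.val : ℤ) - u - (c1 * (y.val : ℤ) - u) := by ring
      rw [e]; exact this
    have h4 : c2 ∣ (x.val : ℤ) - y.val := by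
      apply h12.symm.dvd_of_dvd_mul_left
      have := dvd_sub hx'.2 hy'.2
      have e : c1 * ((x.val : ℤ) - y.val) = c1 * (x.val : ℤ) - v - (c1 * (y.val : ℤ) - v) := by ring
      rw [e]; exact this
    have h5 : c2 * c3 ∣ (x.val : ℤ) - y.val := h23.mul_dvd h4 h3
    have h6 : (m : ℤ) ∣ (x.val : ℤ) - y.val := by
      rw [hm, ← Int.natAbs_mul, Int.natCast_natAbs, abs_dvd]
      exact h5
    have h7 : y.val ≡ x.val [MOD m] := Nat.modEq_iff_dvd.2 h6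
    have h8 : x.val / m = y.val / m := hxy
    have h9 : x.val = y.val := by
      rw [← Nat.div_add_mod x.val m, ← Nat.div_add_mod y.val m, h8, h7.symm]
    exact ZMod.val_injective _ h9)
  rwa [card_range] at h1

/-- Cauchy-Schwarz on a partial matching -/
theorem cs_match {X Y : Type} [Fintype X] [Fintype Y] (S : X → Y → Prop) (P : X → Prop)
    (Q : Y → Prop) (hP : ∀ x y, S x y → P x) (hQ : ∀ x y, S x y → Q y)
    (h1 : ∀ x y y', S x y → S x y' → y = y') (h2 : ∀ x x' y, S x y → S x' y → x = x')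
    [∀ x y, Decidable (S x y)] [DecidablePred P] [DecidablePred Q] (b : X → ℝ) (c : Y → ℝ) :
    (∑ x, ∑ y, if S x y then b x * c y else 0) ^ 2 ≤
      (∑ x, if P x then (b x) ^ 2 else 0) * ∑ y, if Q y then (c y) ^ 2 else 0 := by
  classical
  set E : Finset (X × Y) := univ.filter fun p => S p.1 p.2 with hE
  have e1 : ∑ x, ∑ y, (if S x y then b x * c y else 0) = ∑ p ∈ E, b p.1 * c p.2 := by
    rw [hE, Finset.sum_filter, ← Finset.univ_product_univ, Finset.sum_product]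
  have e2 : ∑ p ∈ E, (b p.1) ^ 2 ≤ ∑ x, if P x then (b x) ^ 2 else 0 := by
    have e3 : ∑ x ∈ E.image Prod.fst, (b x) ^ 2 = ∑ p ∈ E, (b p.1) ^ 2 := by
      apply Finset.sum_image
      intro p hp p' hp' hpp
      rw [Finset.mem_coe, hE, mem_filter] at hp hp'
      have h3 : p.1 = p'.1 := hpp
      refine Prod.ext h3 ?_
      refine h1 p.1 p.2 p'.2 hp.2 ?_
      rw [h3]
      exact hp'.2
    rw [← e3, ← Finset.sum_filter]
    refine Finset.sum_le_sum_of_subset_of_nonneg ?_ fun _ _ _ => sq_nonneg _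
    intro x hx
    rw [mem_image] at hx
    obtain ⟨p, hp, rfl⟩ := hx
    rw [hE, mem_filter] at hp
    rw [mem_filter]
    exact ⟨mem_univ _, hP _ _ hp.2⟩
  have e4 : ∑ p ∈ E, (c p.2) ^ 2 ≤ ∑ y, if Q y then (c y) ^ 2 else 0 := by
    have e3 : ∑ y ∈ E.image Prod.snd, (c y) ^ 2 = ∑ p ∈ E, (c p.2) ^ 2 := by
      apply Finset.sum_image
      intro p hp p' hp' hpp
      rw [Finset.mem_coe, hE, mem_filter] at hp hp'
      have h3 : p.2 = p'.2 := hpp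
      refine Prod.ext ?_ h3
      refine h2 p.1 p'.1 p.2 hp.2 ?_
      rw [h3]
      exact hp'.2
    rw [← e3, ← Finset.sum_filter]
    refine Finset.sum_le_sum_of_subset_of_nonneg ?_ fun _ _ _ => sq_nonneg _
    intro y hy
    rw [mem_image] at hy
    obtain ⟨p, hp, rfl⟩ := hy
    rw [hE, mem_filter] at hp
    rw [mem_filter]
    exact ⟨mem_univ _, hQ _ _ hp.2⟩
  rw [e1]
  calc (∑ p ∈ E, b p.1 * c p.2) ^ 2 ≤ (∑ p ∈ E, (b p.1) ^ 2) * ∑ p ∈ E, (c p.2) ^ 2 :=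
        Finset.sum_mul_sq_le_sq_mul_sq E (fun p => b p.1) fun p => c p.2
    _ ≤ _ := mul_le_mul e2 e4 (Finset.sum_nonneg fun _ _ => sq_nonneg _)
        ((Finset.sum_nonneg fun _ _ => sq_nonneg _).trans e2)

/-- the abstract inequality -/
theorem lw {X Y Z : Type} [Fintype X] [Fintype Y] [Fintype Z] (S : X → Y → Z → Prop)
    (P : X → Y → Prop) (Q : X → Z → Prop) (k : ℕ) (hP : ∀ x y z, S x y z → P x y)
    (hQ : ∀ x y z, S x y z → Q x z) (h1 : ∀ x y z z', S x y z → S x y z' → z = z')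
    (h2 : ∀ x y y' z, S x y z → S x y' z → y = y')
    (h3 : ∀ y z, ∀ E : Finset X, (∀ x ∈ E, P x y ∧ Q x z) → E.card ≤ k)
    (instS : ∀ x y z, Decidable (S x y z)) (A : X → ℂ) (B : Y → ℂ) (C : Z → ℂ) :
    ‖∑ x, ∑ y, ∑ z, if S x y z then A x * B y * C z else 0‖ ^ 2 ≤
      k * (∑ x, ‖A x‖ ^ 2) * (∑ x, ‖B x‖ ^ 2) * (∑ x, ‖C x‖ ^ 2) := by
  classical
  set g : X → ℝ := fun x => ∑ y, ∑ z, if S x y z then ‖B y‖ * ‖C z‖ else 0 with hg
  have e1 : ‖∑ x, ∑ y, ∑ z, if S x y z then A x * B y * C z else 0‖ ≤ ∑ x, ‖A x‖ * g x := by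
    refine (norm_sum_le _ _).trans (Finset.sum_le_sum fun x _ => ?_)
    refine (norm_sum_le _ _).trans ?_
    rw [hg]
    simp only
    rw [Finset.mul_sum]
    refine Finset.sum_le_sum fun y _ => ?_
    refine (norm_sum_le _ _).trans ?_
    rw [Finset.mul_sum]
    refine Finset.sum_le_sum fun z _ => ?_
    split_ifs
    · rw [norm_mul, norm_mul]
      exact le_of_eq (by ring)
    · simp
  have e2 : (∑ x, ‖A x‖ * g x) ^ 2 ≤ (∑ x, ‖A x‖ ^ 2) * ∑ x, (g x) ^ 2 :=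
    Finset.sum_mul_sq_le_sq_mul_sq univ (fun x => ‖A x‖) g
  have e3 : ∑ x, (g x) ^ 2 ≤ k * ((∑ x, ‖B x‖ ^ 2) * (∑ x, ‖C x‖ ^ 2)) := by
    calc ∑ x, (g x) ^ 2
        ≤ ∑ x, (∑ y, if P x y then ‖B y‖ ^ 2 else 0) * ∑ z, if Q x z then ‖C z‖ ^ 2 else 0 := by
          refine Finset.sum_le_sum fun x _ => ?_
          exact cs_match (S x) (P x) (Q x) (fun y z h => hP x y z h) (fun y z h => hQ x y z h)
            (fun y z z' h h' => h1 x y z z' h h') (fun y y' z h h' => h2 x y y' z h h')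
            (fun y => ‖B y‖) fun z => ‖C z‖
      _ = ∑ x, ∑ y, ∑ z, if P x y ∧ Q x z then ‖B y‖ ^ 2 * ‖C z‖ ^ 2 else 0 := by
          refine sum_congr rfl fun x _ => ?_
          rw [Finset.sum_mul]
          refine sum_congr rfl fun y _ => ?_
          rw [Finset.mul_sum]
          refine sum_congr rfl fun z _ => ?_
          by_cases hp : P x y <;> by_cases hq : Q x z <;> simp [hp, hq]
      _ = ∑ y, ∑ z, ∑ x, if P x y ∧ Q x z then ‖B y‖ ^ 2 * ‖C z‖ ^ 2 else 0 := by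
          rw [Finset.sum_comm]
          refine sum_congr rfl fun y _ => ?_
          rw [Finset.sum_comm]
      _ ≤ ∑ y, ∑ z, (k : ℝ) * (‖B y‖ ^ 2 * ‖C z‖ ^ 2) := by
          refine Finset.sum_le_sum fun y _ => Finset.sum_le_sum fun z _ => ?_
          rw [← Finset.sum_filter, Finset.sum_const, nsmul_eq_mul]
          refine mul_le_mul_of_nonneg_right ?_ (by positivity)
          exact_mod_cast h3 y z _ fun x hx => (mem_filter.1 hx).2
      _ = k * ((∑ x, ‖B x‖ ^ 2) * (∑ x, ‖C x‖ ^ 2)) := by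
          rw [Finset.sum_mul, Finset.mul_sum]
          refine sum_congr rfl fun y _ => ?_
          rw [Finset.mul_sum, Finset.mul_sum]
  calc ‖∑ x, ∑ y, ∑ z, if S x y z then A x * B y * C z else 0‖ ^ 2
      ≤ (∑ x, ‖A x‖ * g x) ^ 2 := pow_le_pow_left₀ (norm_nonneg _) e1 2
    _ ≤ (∑ x, ‖A x‖ ^ 2) * ∑ x, (g x) ^ 2 := e2
    _ ≤ (∑ x, ‖A x‖ ^ 2) * (k * ((∑ x, ‖B x‖ ^ 2) * (∑ x, ‖C x‖ ^ 2))) :=
        mul_le_mul_of_nonneg_left e3 (Finset.sum_nonneg fun _ _ => sq_nonneg _)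
    _ = _ := by ring

theorem core (c1 c2 c3 : ℤ) (k q1 q2 q3 K : ℕ) [NeZero q1] [NeZero q2] [NeZero q3]
    (hq1 : q1 = k * c2.natAbs * c3.natAbs) (hq2 : q2 = k * c1.natAbs * c3.natAbs)
    (hq3 : q3 = k * c1.natAbs * c2.natAbs) (hK : K = k * c1.natAbs * c2.natAbs * c3.natAbs)
    (h12 : IsCoprime c1 c2) (h13 : IsCoprime c1 c3) (h23 : IsCoprime c2 c3)
    (d : ZMod K) (A : ZMod q1 → ℂ) (B : ZMod q2 → ℂ) (C : ZMod q3 → ℂ)
    (inst : ∀ (x1 : ZMod q1) (x2 : ZMod q2) (x3 : ZMod q3), Decidable (((c1 * (x1.val : ℤ) +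
        c2 * (x2.val : ℤ) + c3 * (x3.val : ℤ) : ℤ) : ZMod K) = d)) :
    ‖∑ x1 : ZMod q1, ∑ x2 : ZMod q2, ∑ x3 : ZMod q3,
      if ((c1 * (x1.val : ℤ) + c2 * (x2.val : ℤ) + c3 * (x3.val : ℤ) : ℤ) : ZMod K) = d
        then A x1 * B x2 * C x3 else 0‖ ^ 2 ≤
      k * (∑ x, ‖A x‖ ^ 2) * (∑ x, ‖B x‖ ^ 2) * (∑ x, ‖C x‖ ^ 2) := by
  obtain ⟨D, hD⟩ := ZMod.intCast_surjective d
  have hne1 := NeZero.ne q1
  have hc2 : c2 ≠ 0 := by
    rintro rfl
    apply hne1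
    rw [hq1]; simp
  have hc3 : c3 ≠ 0 := by
    rintro rfl
    apply hne1
    rw [hq1]; simp
  have hdv : ∀ (x1 : ZMod q1) (x2 : ZMod q2) (x3 : ZMod q3), ((c1 * (x1.val : ℤ) +
      c2 * (x2.val : ℤ) + c3 * (x3.val : ℤ) : ℤ) : ZMod K) = d →
      (K : ℤ) ∣ D - (c1 * (x1.val : ℤ) + c2 * (x2.val : ℤ) + c3 * (x3.val : ℤ)) := by
    intro x1 x2 x3 h
    rw [← hD] at h
    exact (ZMod.intCast_eq_intCast_iff_dvd_sub _ _ _).1 h
  have hd3 : c3 ∣ (K : ℤ) := by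
    rw [hK]
    push_cast
    exact dvd_mul_of_dvd_right ((dvd_abs _ _).2 dvd_rfl) _
  have hd2 : c2 ∣ (K : ℤ) := by
    rw [hK]
    push_cast
    exact dvd_mul_of_dvd_left (dvd_mul_of_dvd_right ((dvd_abs _ _).2 dvd_rfl) _) _
  have g1 : ∀ (x1 : ZMod q1) (x2 : ZMod q2) (x3 : ZMod q3), ((c1 * (x1.val : ℤ) +
      c2 * (x2.val : ℤ) + c3 * (x3.val : ℤ) : ℤ) : ZMod K) = d →
      c3 ∣ c1 * (x1.val : ℤ) - (D - c2 * (x2.val : ℤ)) := by
    intro x1 x2 x3 h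
    have h1 := hd3.trans (hdv x1 x2 x3 h)
    have e : c1 * (x1.val : ℤ) - (D - c2 * (x2.val : ℤ)) =
        -(D - (c1 * (x1.val : ℤ) + c2 * (x2.val : ℤ) + c3 * (x3.val : ℤ))) -
          c3 * (x3.val : ℤ) := by ring
    rw [e]
    exact dvd_sub ((dvd_neg).2 h1) (dvd_mul_right _ _)
  have g2 : ∀ (x1 : ZMod q1) (x2 : ZMod q2) (x3 : ZMod q3), ((c1 * (x1.val : ℤ) +
      c2 * (x2.val : ℤ) + c3 * (x3.val : ℤ) : ℤ) : ZMod K) = d →
      c2 ∣ c1 * (x1.val : ℤ) - (D - c3 * (x3.val : ℤ)) := by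
    intro x1 x2 x3 h
    have h1 := hd2.trans (hdv x1 x2 x3 h)
    have e : c1 * (x1.val : ℤ) - (D - c3 * (x3.val : ℤ)) =
        -(D - (c1 * (x1.val : ℤ) + c2 * (x2.val : ℤ) + c3 * (x3.val : ℤ))) -
          c2 * (x2.val : ℤ) := by ring
    rw [e]
    exact dvd_sub ((dvd_neg).2 h1) (dvd_mul_right _ _)
  have g3 : ∀ (x1 : ZMod q1) (x2 : ZMod q2) (x3 x3' : ZMod q3), ((c1 * (x1.val : ℤ) +
      c2 * (x2.val : ℤ) + c3 * (x3.val : ℤ) : ℤ) : ZMod K) = d → ((c1 * (x1.val : ℤ) +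
      c2 * (x2.val : ℤ) + c3 * (x3'.val : ℤ) : ℤ) : ZMod K) = d → x3 = x3' := by
    intro x1 x2 x3 x3' h h'
    apply val_inj
    refine canc hc3 (K := K) (by rw [hK, hq3]) ?_
    have h1 := dvd_sub (hdv x1 x2 x3' h') (hdv x1 x2 x3 h)
    have e : c3 * ((x3.val : ℤ) - x3'.val) =
        D - (c1 * (x1.val : ℤ) + c2 * (x2.val : ℤ) + c3 * (x3'.val : ℤ)) -
        (D - (c1 * (x1.val : ℤ) + c2 * (x2.val : ℤ) + c3 * (x3.val : ℤ))) := by ring
    rw [e]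
    exact h1
  have g4 : ∀ (x1 : ZMod q1) (x2 x2' : ZMod q2) (x3 : ZMod q3), ((c1 * (x1.val : ℤ) +
      c2 * (x2.val : ℤ) + c3 * (x3.val : ℤ) : ℤ) : ZMod K) = d → ((c1 * (x1.val : ℤ) +
      c2 * (x2'.val : ℤ) + c3 * (x3.val : ℤ) : ℤ) : ZMod K) = d → x2 = x2' := by
    intro x1 x2 x2' x3 h h'
    apply val_inj
    refine canc hc2 (K := K) (by rw [hK, hq2]; ring) ?_
    have h1 := dvd_sub (hdv x1 x2' x3 h') (hdv x1 x2 x3 h)
    have e : c2 * ((x2.val : ℤ) - x2'.val) =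
        D - (c1 * (x1.val : ℤ) + c2 * (x2'.val : ℤ) + c3 * (x3.val : ℤ)) -
        (D - (c1 * (x1.val : ℤ) + c2 * (x2.val : ℤ) + c3 * (x3.val : ℤ))) := by ring
    rw [e]
    exact h1
  have key := lw (X := ZMod q1) (Y := ZMod q2) (Z := ZMod q3)
    (fun (x1 : ZMod q1) (x2 : ZMod q2) (x3 : ZMod q3) =>
      ((c1 * (x1.val : ℤ) + c2 * (x2.val : ℤ) + c3 * (x3.val : ℤ) : ℤ) : ZMod K) = d)
    (fun (x1 : ZMod q1) (x2 : ZMod q2) => c3 ∣ c1 * (x1.val : ℤ) - (D - c2 * (x2.val : ℤ)))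
    (fun (x1 : ZMod q1) (x3 : ZMod q3) => c2 ∣ c1 * (x1.val : ℤ) - (D - c3 * (x3.val : ℤ))) k
    g1 g2 g3 g4 (fun x2 x3 E hE => cnt hq1 h12 h13 h23 _ _ E hE) inst A B C
  exact key

end Pool.Agent.Y445.GJ
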