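import Pool.Agent.Y883.GJ.Stm3
import Pool.Agent.Y445.GJ.TNormCore

set_option autoImplicit false

/-! Project GJ, TNORM: the ternary congruence and the square norms. -/

namespace Pool.Agent.Y445.GJ

open Pool.Agent.Y883.GJ

theorem tNorm : TNormStm := by
  intro c1 c2 c3 k _ _ _ h12 h13 h23 d A B C
  have key := Pool.Agent.Y445.GJ.core c1 c2 c3 k (k * c2.natAbs * c3.natAbs)
    (k * c1.natAbs * c3.natAbs) (k * c1.natAbs * c2.natAbs) (k * c1.natAbs * c2.natAbs * c3.natAbs)
    rfl rfl rfl rfl h12 h13 h23 d A B C (fun x1 x2 x3 => ZMod.decidableEq _ _ _)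
  unfold T3
  exact key

end Pool.Agent.Y445.GJ
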